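import Mathlib
import Pool.Agent.H298.Core.WeilRel
import Pool.Graph.R_pool_sql_team_seeded_2aa45f1a.Q64.CT.Thms

/-!
# The noncommutative Tate conjecture and products with abelian varieties whose CM fields have
irreducible odd part or primitive core

**Cores.** Let `K` be a CM field of degree `2 g`, `X` the set of its complex embeddings. The
automorphisms of `ℂ` which map all elements of `X` to themselves or to their complex conjugates are
called sign changes. The first core of `φ : X` consists of the `ψ : X` which are moved by the same
sign changes as `φ`. If one uses all automorphisms which map the elements of the first core to
themselves or to their conjugates, one obtains the second core, inside of the first one, and so on
(`coreOf`). The cores of the same index have the same number `2 c` of elements, `c` divides `g`, and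
the smallest such number `c` is the core number of `K`. It is one for the typical CM field (all sign
patterns occur). If `g` is prime it is one or `g`; if `g` is a product of two prime numbers it is
one or prime as soon as there is a sign change different from the identity and the complex
conjugation. If a prime number `ℓ` divides the discriminant of `K`, but not the discriminant of the
maximal real subfield, then `ℓ ^ c` divides the discriminant of `K`; so `c` is one or prime if there
is no other divisor `d` of `g` such that `ℓ ^ d` divides the discriminant of `K` (`FewDivisors`).

**The Weil numbers.** Let `p` be a prime number, `q = p ^ a`, let `K i` (`i` in a finite set) be CM
fields and `π i` Weil numbers for `q` in `K i` such that each power `(π i) ^ n`, `n ≥ 1`, generates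
`K i`. By Honda and Tate they correspond to the abelian varieties over the field with `q` elements
which are geometrically simple with commutative endomorphism ring, and to other abelian varieties.
Suppose that for each `K = K i` one of the following conditions holds (`IsCoreWeil`).

* The rational functions on `X` which change their sign under complex conjugation are an irreducible
  representation of the automorphisms of `ℂ` (`OddIrreducible`), for example because the core number
  of `K` is one.
* There is a core with `c` pairs of embeddings, and `c` is a prime number, or `c = [K : F]` for a
  subfield `F`, not totally real, such that the automorphisms of `ℂ` act doubly transitively on the
  extensions to `K` of an embedding of `F` (`PrimitiveCore`); and there is **no** subfield `F` with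
  `[K : F] = c`, not totally real, in which the norm `N` of `π i` is supersingular
  (`SupersingularNorm`; this means that `N ^ 2 / q ^ c` is a root of unity).

The condition on the norms in the second case is necessary and sufficient for the absence of
relations between the conjugates of `π i` (`NormCriteria`), and so of exotic Tate classes on the
powers of its abelian variety; it is satisfied if `c = 2`, if `c` is odd and the slopes of `π i`
have odd denominators (for example in the ordinary case), and if all subfields `F` with `[K : F] =
c` are totally real. There are no other conditions on `π i`, its slopes, the decomposition of `p` in
`K i`, the degree or the Galois group of `K i`. The fields `K i` are pairwise independent
(`PairwiseIndep`; no condition if there is only one field). Let `f i` be monic polynomials whose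
complex roots are conjugates of `π i` (`IsPolyOf`), for instance powers of the characteristic
polynomials of Frobenius. Let `A` be an abelian variety over the field with `Q = q ^ s` elements
which is isogenous to a product of powers of abelian varieties coming from the field with `q`
elements, with characteristic polynomials `f i`.

**The theorem** (`NCTateReduces`). Let `Z` be **any** smooth projective variety over the field with
`Q` elements such that the eigenvalues of Frobenius on the cohomology of `Z` and their conjugates
are unrelated to the fields `K i`. A complex number `ρ ≠ 0` is unrelated to the fields `K i`
(`Unrelated`) if a rational function on the complex embeddings of `K i` which changes its sign under
complex conjugation and is invariant under all automorphisms of `ℂ` that fix a power of `ρ` is zero.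
This is so if for each embedding `ψ` of `K i` some automorphism which fixes a power of `ρ` is the
complex conjugation on `ψ (K i)`, for instance if a power of `ρ` is in a totally real field, or in a
number field `F` from which `K i` is separated by a prime number (see below).

Let `𝒜` be a smooth proper dg category whose noncommutative motive with rational coefficients is a
direct summand of the one of `Z`, for instance the category of perfect complexes on `Z`, or a
component of a semi-orthogonal decomposition of it. It is given by an idempotent `e` in the ring
`K_0(Z × Z)_ℚ`, which is identified with `CH(Z × Z)_ℚ` (all degrees together) by the Chern character
multiplied by the square root of the Todd class. The noncommutative motive of the dg category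
`perf(A) ⊗ 𝒜` is `(A × Z, 1 × e)`. The `l`-adic realization of `𝒜` is the image of `e` in the sum of
the `H^(2i)(Z)(i)`. The Tate conjecture for `𝒜` says that all Frobenius invariants in it are linear
combinations of classes of elements of `K_0(𝒜)`; it is equivalent to the vanishing of the groups in
the question, by the theorem of Thomason, applied to `Z`, and since the functors involved are
defined on noncommutative motives.

Then there are finitely many products `D j` of divisors on `A` such that the Frobenius invariants in
the realization of `perf(A) ⊗ 𝒜` are the products of the classes of the `D j` with those in the
realization of `𝒜`. In particular **the noncommutative Tate conjecture for `perf(A) ⊗ 𝒜` is
equivalent to the one for `𝒜`**, without any further assumption: no motive is assumed to be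
finite-dimensional. As all `s` are allowed, this holds simultaneously over all finite extensions of
the ground field.

Part two (`CoreCriteria`) contains criteria by degrees, sign changes and discriminants: for the
cores (`c` divides `g`, `g` itself is possible; if `g` is the product of two prime numbers then a
sign change which moves some embeddings but not all gives a core with `c = 1` or `c` prime; the
discriminant criterion `FewDivisors`), for the norms (`NormCriteria`), for the independence of the
fields, and for the condition on the eigenvalues. A prime number `ℓ` separates `K i` from a number
field `F` if `ℓ` divides the discriminant of `K i` but not the one of its maximal real subfield and
not the one of `F`. The fields `K i` are pairwise independent if any two of them are separated by a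
prime number (in one direction). All nonzero elements of `F` are independent of the `K i`, in
particular unrelated to them, if all `K i` are separated from `F`. So for example, if `ℓ` divides
the discriminant of a CM field `K` and `ℓ ^ 2` does not, then the theorem holds for all Weil numbers
`π` in `K` with `ℚ(π ^ n) = K` for all `n`, and all varieties whose eigenvalues lie in fields of a
discriminant prime to `ℓ`.

The framework (`TheoryData`, `IsChow`, `IsWeil`) is the one of the library: the Chow groups `C` with
their pull-backs, push-forwards and products, and a Weil cohomology theory `H` with coefficients in
an algebraically closed field, on a class `𝒱` of smooth proper varieties over `k`.

**What was known.** For the powers of one abelian variety of prime dimension and a point the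
conjecture of Tate is due to Tankeev (and Ribet, Lenstra, Zarhin); in the library there are products
with unrelated varieties for almost all slope types of CM fields (`AllCMTypesTimes`, whose machine
is used), and for families of Weil numbers outside of finitely many exceptional slope vectors. New
here are the abelian varieties of all dimensions in the fields with primitive cores, with a
condition on the norms which is necessary and sufficient, without exceptional types.

**The proof.** It is sufficient to show for each field `K` that the function `w`, the slope of `φ
(π)` minus one half, on the set `X` is not orthogonal to a nonzero space of odd functions which is
stable under the automorphisms of `ℂ`. If the odd functions are irreducible this is clear. Let `r`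
be an element of such a space with integral values. By the sign changes one can cut `r` down; this
gives, by induction on the size of the support and on the index of the core, a relation which is
supported in one core. The automorphisms preserving the core act transitively on it. If it has `2 c`
elements with a prime number `c`, then a Sylow subgroup contains an element which has two orbits of
length `c` on the core, exchanged by the complex conjugation. Since the cyclotomic polynomial is
irreducible, either `w (τ φ) = w (τ φ')` for all `τ` with two different `φ`, `φ'` of the core, or
the sums of `w` over the translates of one orbit are zero, and the orbit consists of the extensions
of an embedding of a subfield `F` with `[K : F] = c`, which is not totally real. In the doubly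
transitive case the extensions of an embedding of `F` are one half of the core (a sign change moves
all of them or none), and an average over a stabilizer gives the same two alternatives. In the first
case `φ (π)` and `φ' (π)` have the same absolute values at all places of all conjugates, so they
differ by a root of unity, and a power of `π` does not generate `K`. In the second case the norm of
`π` in `F` is supersingular. Conversely a supersingular norm is a relation, by Kronecker's theorem.

The reduction of `perf(A) ⊗ 𝒜` to `𝒜` is the one of the library: since `A` has no relations with
unrelated eigenvalues, the correspondence on `A` given by the sum of the products of dual classes of
products of divisors acts as the identity on the part of the theory of `perf(A) ⊗ 𝒜` in question.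
-/

set_option autoImplicit false

namespace Pool.Agent.Results.MP_de89cc_ag.SmallCoreFields

open NumberField Polynomial Pool.Agent.H977R3.CM Pool.Agent.Y1.CT Pool.Agent.H298.Core
  Pool.Agent.Q64.CT

/-- **The noncommutative Tate conjecture for `perf(A) ⊗ 𝒜` is equivalent to the one for `𝒜`, for all
abelian varieties `A` whose Weil numbers lie in independent CM fields with irreducible odd part or
primitive core, and all unrelated `𝒜`.** -/
theorem result :
    (∀ (p : ℕ) [Fact p.Prime] (a : ℕ), 0 < a → ∀ (I : Type) [Fintype I] (K : I → Type)
      [∀ i, Field (K i)] [∀ i, NumberField (K i)] [∀ i, IsCMField (K i)], PairwiseIndep K →
      ∀ (π : ∀ i, K i) (f : I → ℤ[X]), (∀ i, IsCoreWeil p a (π i)) →
      (∀ i, IsPolyOf (π i) (f i)) → NCTateReduces K (p ^ a) f) ∧ CoreCriteria :=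
  ⟨fun _ _ _ ha _ _ _ _ _ _ hK _ _ hπ hf =>
    ncTateReduces (Nat.one_lt_pow ha.ne' (Fact.out : Nat.Prime _).one_lt)
      (noRel_unrelated ha hK hπ hf), coreCriteria_hold⟩

end Pool.Agent.Results.MP_de89cc_ag.SmallCoreFields
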